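import Pool.Agent.Helper28.VF.Defs
import Pool.Agent.Helper34.FF.Defs

/-!
# Planar graphs by rotation systems and their triangulations

`Planar G` : the finite simple graph `G` is a (spanning) subgraph of the underlying graph of a
connected plane map without loops and multiple edges.  Here a plane map is a rotation system
with `V - E + F = 2` (structure `Helper28.VF.PM`).
-/

namespace Helper28.PL

open Finset Equiv Helper28.VF

section
variable {D V E F : Type} [Fintype D] [Fintype V] [Fintype E] [Fintype F]

/-- The map has no loops and no multiple edges. -/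
structure Simple (M : PM D V E F) : Prop where
  noloop : ∀ d, M.vt (M.α d) ≠ M.vt d
  simple : ∀ d e, M.vt d = M.vt e → M.vt (M.α d) = M.vt (M.α e) → d = e

/-- Two vertices are joined by an edge of the map. -/
def Adj (M : PM D V E F) (u v : V) : Prop := ∃ d, M.vt d = u ∧ M.vt (M.α d) = v

/-- The face permutation. -/
def φ (M : PM D V E F) : Perm D := M.σ * M.α

/-- All faces are triangles. -/
def Triang (M : PM D V E F) : Prop := ∀ d, φ M (φ M (φ M d)) = d

end

/-- A finite simple graph is planar if it is a spanning subgraph of the underlying graph of a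
connected plane map (a rotation system with `V - E + F = 2`) without loops and multiple edges. -/
def Planar {V : Type} [Fintype V] (G : SimpleGraph V) : Prop :=
  ∃ (D E F : Type) (_ : Fintype D) (_ : Fintype E) (_ : Fintype F) (M : PM D V E F),
    Simple M ∧ ∀ u v, G.Adj u v → Adj M u v

/-- P1: a chord can be inserted into a face. -/
def StmtChord : Prop :=
  ∀ (D V E F : Type) [Fintype D] [Fintype V] [Fintype E] [Fintype F] (M : PM D V E F) (a b : D),
    a ≠ b → M.fc a = M.fc b →
    ∃ M' : PM (D ⊕ Bool) V (Option E) (Option F),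
      (∀ d, M'.vt (Sum.inl d) = M.vt d) ∧ (∀ d, M'.α (Sum.inl d) = Sum.inl (M.α d)) ∧
      M'.vt (Sum.inr false) = M.vt a ∧ M'.vt (Sum.inr true) = M.vt b ∧
      M'.α (Sum.inr false) = Sum.inr true ∧ M'.α (Sum.inr true) = Sum.inr false

/-- P2: a face that is not a triangle has a chord whose ends are not adjacent. -/
def StmtPair : Prop :=
  ∀ (D V E F : Type) [Fintype D] [Fintype V] [Fintype E] [Fintype F] (M : PM D V E F),
    Simple M → 3 ≤ Fintype.card V → ¬ Triang M →
    ∃ a b, M.fc a = M.fc b ∧ M.vt a ≠ M.vt b ∧ ¬ Adj M (M.vt a) (M.vt b)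

/-- P3: every simple plane map with at least three vertices extends to a triangulation. -/
def StmtMax : Prop :=
  ∀ (D V E F : Type) [Fintype D] [Fintype V] [Fintype E] [Fintype F] (M : PM D V E F),
    Simple M → 3 ≤ Fintype.card V →
    ∃ (D' E' F' : Type) (_ : Fintype D') (_ : Fintype E') (_ : Fintype F')
      (M' : PM D' V E' F'), Simple M' ∧ Triang M' ∧ ∀ u v, Adj M u v → Adj M' u v

/-- P4: a simple triangulated plane map gives a simplicial triangulation. -/
def StmtTri : Prop :=
  ∀ (D V E F : Type) [Fintype D] [Fintype V] [Fintype E] [Fintype F] (M : PM D V E F),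
    Simple M → Triang M →
    ∃ T : Pool.Agent.Helper34.FF.Tri V F, T.Sphere ∧ ∀ u v, Adj M u v → T.G.Adj u v

/-- The bridge. -/
def StmtPlanar : Prop :=
  ∀ (V : Type) [Fintype V] (G : SimpleGraph V), 3 ≤ Fintype.card V → Planar G →
    ∃ (F : Type) (_ : Fintype F) (T : Pool.Agent.Helper34.FF.Tri V F), T.Sphere ∧
      ∀ u v, G.Adj u v → T.G.Adj u v

end Helper28.PL
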