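import Mathlib

/-!
# Planar graphs

A finite simple graph is planar iff it is a spanning subgraph of a connected simple graph drawn
on the sphere.  Drawings of connected graphs on closed orientable surfaces are described, as usual,
by rotation systems: a *dart* is an edge together with a direction, `α` reverses darts, `σ` sends a
dart to the next dart (counterclockwise) with the same initial vertex, and the faces are the cycles
of the permutation `σ ∘ α`.  The surface is the sphere iff `V - E + F = 2`.
-/

namespace Helper28.PL

open Equiv

/-- A drawing on the sphere of a connected graph without loops and multiple edges, with vertex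
set `V` and dart set `D`, given as a rotation system of Euler characteristic `2`. -/
structure SphereDrawing (V D : Type) [Fintype V] [Fintype D] where
  /-- the rotation: the next dart with the same initial vertex -/
  σ : Perm D
  /-- the reversal of darts -/
  α : Perm D
  /-- the initial vertex of a dart -/
  vt : D → V
  /-- reversing twice gives the same dart -/
  α_inv : ∀ d, α (α d) = d
  /-- the reverse of a dart is a different dart -/
  α_ne : ∀ d, α d ≠ d
  /-- the darts with a given initial vertex form one cycle of the rotation -/
  vt_iff : ∀ d e, vt d = vt e ↔ σ.SameCycle d e
  /-- every vertex is the initial vertex of some dart -/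
  vt_surj : Function.Surjective vt
  /-- there are no loops -/
  noloop : ∀ d, vt (α d) ≠ vt d
  /-- there are no multiple edges -/
  simple : ∀ d e, vt d = vt e → vt (α d) = vt (α e) → d = e
  /-- the graph is connected -/
  conn : ∀ P : D → Prop, (∃ d, P d) → (∀ d, P d → P (σ d)) → (∀ d, P d → P (α d)) → ∀ d, P d
  /-- Euler's formula `V + F = E + 2`, multiplied by two (`2 E` is the number of darts, the faces
  are the cycles of `σ * α`) -/
  euler : 2 * Fintype.card V + 2 * Nat.card (Quotient (Perm.SameCycle.setoid (σ * α))) =
    Fintype.card D + 4

/-- A finite simple graph with at least two vertices is planar if it is a (spanning) subgraph of a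
connected simple graph drawn on the sphere. -/
def PlanarGraph {V : Type} [Fintype V] (G : SimpleGraph V) : Prop :=
  ∃ (D : Type) (_ : Fintype D) (M : SphereDrawing V D),
    ∀ u v, G.Adj u v → ∃ d, M.vt d = u ∧ M.vt (M.α d) = v

end Helper28.PL
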