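import Pool.Agent.Helper28.PL.Max
import Pool.Agent.Helper28.PL.Planar
import Pool.Agent.Helper50.PL.Chord
import Pool.Agent.Helper69.PL.TriP

namespace Helper28.PL

open Finset Equiv Helper28.VF

/-- P3. -/
theorem stmtMax : StmtMax := stmtMax_of Helper50.PL.stmtChord

/-- The bridge for `Planar`. -/
theorem stmtPlanar : StmtPlanar := stmtPlanar_of Helper50.PL.stmtChord Helper69.PL.stmtTri

/-- The plane map of a drawing. -/
theorem planar_of_planarGraph {V : Type} [Fintype V] (G : SimpleGraph V) (h : PlanarGraph G) :
    Planar G := by
  classical
  obtain ⟨D, iD, M, hG⟩ := h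
  let sE : Setoid D := Perm.SameCycle.setoid M.α
  let sF : Setoid D := Perm.SameCycle.setoid (M.σ * M.α)
  have hsc : ∀ d e, M.α.SameCycle d e ↔ e = d ∨ e = M.α d := by
    intro d e
    constructor
    · rintro ⟨n, rfl⟩
      have h2 : M.α ^ (2 : ℤ) = 1 := by
        ext x
        rw [zpow_ofNat, pow_two, Perm.mul_apply, M.α_inv, Perm.one_apply]
      rcases Int.even_or_odd' n with ⟨k, rfl | rfl⟩
      · left
        rw [zpow_mul, h2]
        simp
      · right
        rw [zpow_add, zpow_mul, h2]
        simp
    · rintro (rfl | rfl)
      · exact Perm.SameCycle.refl _ _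
      · exact ⟨1, by simp⟩
  have hE : Fintype.card D = 2 * Fintype.card (Quotient sE) := by
    have h1 : Fintype.card D = ∑ e : Quotient sE,
        (univ.filter fun d : D => (Quotient.mk sE d) = e).card := by
      rw [← Finset.card_univ]
      exact Finset.card_eq_sum_card_fiberwise (fun x _ => by simp)
    have h2 : ∀ e : Quotient sE, (univ.filter fun d : D => (Quotient.mk sE d) = e).card = 2 := by
      intro e
      induction e using Quotient.inductionOn with
      | h d =>
        have : (univ.filter fun x : D => (Quotient.mk sE x) = Quotient.mk sE d) = {d, M.α d} := by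
          ext x
          simp only [mem_filter, mem_univ, true_and, mem_insert, mem_singleton]
          rw [Quotient.eq]
          change M.α.SameCycle x d ↔ _
          rw [Perm.sameCycle_comm, hsc]
        rw [this, Finset.card_pair (M.α_ne d).symm]
    rw [h1]
    simp only [h2, Finset.sum_const, Finset.card_univ, smul_eq_mul]
    ring
  have hF := M.euler
  rw [Nat.card_eq_fintype_card] at hF
  let P : PM D V (Quotient sE) (Quotient sF) :=
    { σ := M.σ
      α := M.α
      vt := M.vt
      ed := Quotient.mk sE
      fc := Quotient.mk sF
      α_inv := M.α_inv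
      α_ne := M.α_ne
      vt_iff := M.vt_iff
      ed_iff := by
        intro d e
        rw [Quotient.eq]
        exact hsc d e
      fc_iff := by
        intro d e
        rw [Quotient.eq]
        rfl
      vt_surj := M.vt_surj
      ed_surj := Quotient.mk_surjective
      fc_surj := Quotient.mk_surjective
      conn := M.conn
      euler := by
        have : Fintype.card (Quotient sF) =
          Fintype.card (Quotient (Perm.SameCycle.setoid (M.σ * M.α))) := by
          apply Fintype.card_congr
          exact Equiv.refl _
        omega }
  exact ⟨D, Quotient sE, Quotient sF, iD, inferInstance, inferInstance, P,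
    ⟨M.noloop, M.simple⟩, hG⟩

/-- **The bridge.** A planar graph with at least three vertices is a spanning subgraph of a
simplicial triangulation of the sphere. -/
theorem planarGraph_tri {V : Type} [Fintype V] (G : SimpleGraph V) (h3 : 3 ≤ Fintype.card V)
    (h : PlanarGraph G) :
    ∃ (F : Type) (_ : Fintype F) (T : Pool.Agent.Helper34.FF.Tri V F), T.Sphere ∧
      ∀ u v, G.Adj u v → T.G.Adj u v :=
  stmtPlanar V G h3 (planar_of_planarGraph G h)

end Helper28.PL
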