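import Pool.Agent.Helper28.PL.Pair

namespace Helper28.PL

open Finset Equiv Helper28.VF

theorem card_le_sq {D V E F : Type} [Fintype D] [Fintype V] [Fintype E] [Fintype F]
    (M : PM D V E F) (hS : Simple M) :
    Fintype.card D ≤ Fintype.card V * Fintype.card V := by
  classical
  rw [← Fintype.card_prod]
  refine Fintype.card_le_of_injective (fun d => (M.vt d, M.vt (M.α d))) ?_
  intro d e h
  simp only [Prod.mk.injEq] at h
  exact hS.simple d e h.1 h.2

/-- Packet P3 from P1 and P2. -/
theorem stmtMax_of (hC : StmtChord) : StmtMax := by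
  classical
  intro D V E F _ _ _ _ M hS h3
  suffices H : ∀ (n : ℕ) (D E F : Type) [Fintype D] [Fintype E] [Fintype F] (M : PM D V E F),
      Simple M → Fintype.card V * Fintype.card V ≤ Fintype.card D + n →
      ∃ (D' E' F' : Type) (_ : Fintype D') (_ : Fintype E') (_ : Fintype F')
        (M' : PM D' V E' F'), Simple M' ∧ Triang M' ∧ ∀ u v, Adj M u v → Adj M' u v by
    exact H (Fintype.card V * Fintype.card V) D E F M hS (by omega)
  intro n
  induction n with
  | zero =>
    intro D E F _ _ _ M hS hn
    by_cases hT : Triang M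
    · exact ⟨D, E, F, _, _, _, M, hS, hT, fun u v h => h⟩
    · exfalso
      obtain ⟨a, b, _, hab, hA⟩ := stmtPair D V E F M hS h3 hT
      have hinj : Function.Injective (fun d => (M.vt d, M.vt (M.α d))) := by
        intro d e h
        simp only [Prod.mk.injEq] at h
        exact hS.simple d e h.1 h.2
      have hbij : Function.Bijective (fun d => (M.vt d, M.vt (M.α d))) := by
        rw [Fintype.bijective_iff_injective_and_card]
        refine ⟨hinj, ?_⟩
        have := card_le_sq M hS
        rw [Fintype.card_prod]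
        omega
      obtain ⟨d, hd⟩ := hbij.2 (M.vt a, M.vt b)
      simp only [Prod.mk.injEq] at hd
      exact hA ⟨d, hd.1, hd.2⟩
  | succ n ih =>
    intro D E F _ _ _ M hS hn
    by_cases hT : Triang M
    · exact ⟨D, E, F, _, _, _, M, hS, hT, fun u v h => h⟩
    · obtain ⟨a, b, hf, hab, hA⟩ := stmtPair D V E F M hS h3 hT
      obtain ⟨M', hv, hα, hv0, hv1, hα0, hα1⟩ := hC D V E F M a b (fun h => hab (by rw [h])) hf
      have hS' : Simple M' := by
        constructor
        · rintro (d | (_ | _))
          · rw [hα, hv, hv]; exact hS.noloop d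
          · rw [hα0, hv0, hv1]; exact hab.symm
          · rw [hα1, hv0, hv1]; exact hab
        · rintro (d | (_ | _)) (e | (_ | _)) h1 h2
          · rw [hv, hv] at h1
            rw [hα, hα, hv, hv] at h2
            rw [hS.simple d e h1 h2]
          · rw [hv, hv0] at h1
            rw [hα, hα0, hv, hv1] at h2
            exact absurd ⟨d, h1, h2⟩ hA
          · rw [hv, hv1] at h1
            rw [hα, hα1, hv, hv0] at h2
            exact absurd ⟨M.α d, h2, by rw [M.α_inv]; exact h1⟩ hA
          · rw [hv, hv0] at h1
            rw [hα, hα0, hv, hv1] at h2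
            exact absurd ⟨e, h1.symm, h2.symm⟩ hA
          · rfl
          · rw [hv0, hv1] at h1
            exact absurd h1 hab
          · rw [hv, hv1] at h1
            rw [hα, hα1, hv, hv0] at h2
            exact absurd ⟨M.α e, h2.symm, by rw [M.α_inv]; exact h1.symm⟩ hA
          · rw [hv0, hv1] at h1
            exact absurd h1.symm hab
          · rfl
      obtain ⟨D', E', F', i1, i2, i3, M'', hS'', hT'', hA''⟩ := ih (D ⊕ Bool) (Option E) (Option F)
        M' hS' (by
          rw [Fintype.card_sum, Fintype.card_bool]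
          omega)
      refine ⟨D', E', F', i1, i2, i3, M'', hS'', hT'', ?_⟩
      rintro u v ⟨d, hd1, hd2⟩
      exact hA'' u v ⟨Sum.inl d, by rw [hv]; exact hd1, by rw [hα, hv]; exact hd2⟩

/-- The bridge from P1 and P4. -/
theorem stmtPlanar_of (hC : StmtChord) (hT : StmtTri) : StmtPlanar := by
  intro V _ G h3 ⟨D, E, F, _, _, _, M, hS, hG⟩
  obtain ⟨D', E', F', i1, i2, i3, M', hS', hT', hA'⟩ := stmtMax_of hC D V E F M hS h3
  obtain ⟨T, hTS, hTA⟩ := hT D' V E' F' M' hS' hT'
  exact ⟨F', i3, T, hTS, fun u v h => hTA u v (hA' u v (hG u v h))⟩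

end Helper28.PL
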