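import Pool.Agent.Helper28.PL.Goals
import Pool.Agent.Helper75.VF.H1

namespace Helper28.PL

open Finset Equiv Helper28.VF

section
variable {D V E F : Type} [Fintype D] [Fintype V] [Fintype E] [Fintype F] (M : PM D V E F)

theorem vt_σ (d : D) : M.vt (M.σ d) = M.vt d :=
  ((M.vt_iff _ _).2 (Perm.SameCycle.symm ⟨1, by simp⟩))

theorem vt_φ (d : D) : M.vt (φ M d) = M.vt (M.α d) := vt_σ M (M.α d)

theorem fc_φ (d : D) : M.fc (φ M d) = M.fc d :=
  ((M.fc_iff _ _).2 (Perm.SameCycle.symm ⟨1, by simp [φ]⟩))

theorem φ_apply (d : D) : φ M d = M.σ (M.α d) := rfl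

variable {M}

theorem cross [DecidableEq D] [DecidableEq V] [DecidableEq E] [DecidableEq F]
    (d0 d1 d2 d3 g h : D) (h1 : φ M d0 = d1) (h2 : φ M d1 = d2) (h3 : φ M d2 = d3)
    (n01 : M.vt d0 ≠ M.vt d1) (n02 : M.vt d0 ≠ M.vt d2) (n03 : M.vt d0 ≠ M.vt d3)
    (n12 : M.vt d1 ≠ M.vt d2) (n13 : M.vt d1 ≠ M.vt d3) (n23 : M.vt d2 ≠ M.vt d3)
    (g0 : M.vt g = M.vt d0) (g2 : M.vt (M.α g) = M.vt d2)
    (k1 : M.vt h = M.vt d1) (k3 : M.vt (M.α h) = M.vt d3) : False := by
  have hαα := M.α_inv
  -- the cochains
  let z : D → ZMod 2 := fun d => (if d = g then 1 else 0) + (if d = M.α g then 1 else 0)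
  let c : D → ZMod 2 := fun d => (if d = d0 then 1 else 0) + (if d = d2 then 1 else 0)
  have hzα : ∀ d, z (M.α d) = z d := by
    intro d
    have e1 : (M.α d = g) ↔ (d = M.α g) := ⟨fun h => by rw [← h, hαα], fun h => by rw [h, hαα]⟩
    have e2 : (M.α d = M.α g) ↔ (d = g) := ⟨fun h => M.α.injective h, fun h => by rw [h]⟩
    simp only [z, e1, e2]
    ring
  have two : ∀ x : ZMod 2, x + x = 0 := by decide
  obtain ⟨l, hl1, hl2⟩ := Helper75.VF.stmtH1 D V E F M (ZMod 2) (fun d => z d + c (M.σ d)) z
    (by
      intro v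
      simp only [z, c, Finset.sum_add_distrib]
      have s1 : ∀ (x : D), ∑ d ∈ univ.filter (fun d => M.vt d = v),
          (if d = x then (1 : ZMod 2) else 0) = if M.vt x = v then 1 else 0 := by
        intro x
        rw [Finset.sum_ite_eq']
        simp
      have s2 : ∀ (x : D), ∑ d ∈ univ.filter (fun d => M.vt d = v),
          (if M.σ d = x then (1 : ZMod 2) else 0) = if M.vt x = v then 1 else 0 := by
        intro x
        have : ∀ d, (M.σ d = x) ↔ (d = M.σ.symm x) := by
          intro d
          rw [Equiv.eq_symm_apply]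
        simp only [this]
        rw [s1]
        have : M.vt (M.σ.symm x) = M.vt x := by
          have := vt_σ M (M.σ.symm x)
          rw [Equiv.apply_symm_apply] at this
          exact this.symm
        rw [this]
      rw [s1, s1, s2, s2, g0, g2]
      have := two (if M.vt d0 = v then (1 : ZMod 2) else 0)
      have := two (if M.vt d2 = v then (1 : ZMod 2) else 0)
      linear_combination two (if M.vt d0 = v then (1 : ZMod 2) else 0) +
        two (if M.vt d2 = v then (1 : ZMod 2) else 0))
    (by intro d; rw [hzα]; exact two _)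
    (by
      intro f
      have : ∀ d, z d + (z (M.α d) + c (M.σ (M.α d))) = c (φ M d) := by
        intro d
        rw [hzα, ← add_assoc, two, zero_add]
        rfl
      simp only [this]
      simp only [c, Finset.sum_add_distrib]
      have s2 : ∀ (x : D), ∑ d ∈ univ.filter (fun d => M.fc d = f),
          (if φ M d = x then (1 : ZMod 2) else 0) = if M.fc x = f then 1 else 0 := by
        intro x
        have : ∀ d, (φ M d = x) ↔ (d = (φ M).symm x) := by
          intro d
          rw [Equiv.eq_symm_apply]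
        simp only [this]
        rw [Finset.sum_ite_eq']
        have : M.fc ((φ M).symm x) = M.fc x := by
          have := fc_φ M ((φ M).symm x)
          rw [Equiv.apply_symm_apply] at this
          exact this.symm
        simp [this]
      rw [s2, s2]
      have : M.fc d2 = M.fc d0 := by rw [← h2, fc_φ, ← h1, fc_φ]
      rw [this]
      exact two _)
  have hφ : ∀ d, l (φ M d) = l d + c (φ M d) := by
    intro d
    rw [φ_apply, hl1, hl2, hzα, add_assoc, ← add_assoc (z d), two, zero_add]
  -- constant around a vertex away from `v0, v2`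
  have hconst : ∀ v, v ≠ M.vt d0 → v ≠ M.vt d2 → ∀ d e, M.vt d = v → M.vt e = v → l d = l e := by
    intro v hv0 hv2 d e hd he
    have hsc : M.σ.SameCycle d e := (M.vt_iff d e).1 (by rw [hd, he])
    obtain ⟨n, _, hn⟩ := hsc.exists_pow_eq''
    have key : ∀ m : ℕ, l ((M.σ ^ m) d) = l d ∧ M.vt ((M.σ ^ m) d) = v := by
      intro m
      induction m with
      | zero => simp [hd]
      | succ m ih =>
        have hs : (M.σ ^ (m + 1)) d = M.σ ((M.σ ^ m) d) := by rw [pow_succ', Perm.mul_apply]
        rw [hs]
        refine ⟨?_, by rw [vt_σ]; exact ih.2⟩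
        rw [hl1, ih.1]
        have q1 : (M.σ ^ m) d ≠ g := by
          intro hh
          have := ih.2
          rw [hh, g0] at this
          exact hv0 this.symm
        have q2 : (M.σ ^ m) d ≠ M.α g := by
          intro hh
          have := ih.2
          rw [hh, g2] at this
          exact hv2 this.symm
        have q3 : M.σ ((M.σ ^ m) d) ≠ d0 := by
          intro hh
          have := ih.2
          rw [← vt_σ, hh] at this
          exact hv0 this.symm
        have q4 : M.σ ((M.σ ^ m) d) ≠ d2 := by
          intro hh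
          have := ih.2
          rw [← vt_σ, hh] at this
          exact hv2 this.symm
        simp [z, c, q1, q2, q3, q4]
    rw [← hn.2]
    exact ((key n).1).symm
  have e1 : l h = l d1 := hconst _ n01.symm n12 _ _ k1 rfl
  have e3 : l (M.α h) = l d3 := hconst _ n03.symm n23.symm _ _ k3 rfl
  have eh : l (M.α h) = l h := by
    rw [hl2]
    have q1 : h ≠ g := by
      intro hh
      rw [hh, g0] at k1
      exact n01 k1
    have q2 : h ≠ M.α g := by
      intro hh
      rw [hh, g2] at k1
      exact n12 k1.symm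
    simp [z, q1, q2]
  have f1 := hφ d1
  have f2 := hφ d2
  rw [h2] at f1
  rw [h3] at f2
  have c2 : c d2 = 1 := by
    have : d2 ≠ d0 := fun hh => n02 (by rw [hh])
    simp [c, this]
  have c3 : c d3 = 0 := by
    have q1 : d3 ≠ d0 := fun hh => n03 (by rw [hh])
    have q2 : d3 ≠ d2 := fun hh => n23 (by rw [hh])
    simp [c, q1, q2]
  rw [c2] at f1
  rw [c3, f1, ← e3, eh, e1] at f2
  have : ∀ x : ZMod 2, x ≠ x + 1 + 0 := by decide
  exact this _ f2

end

/-- Packet P2. -/
theorem stmtPair : StmtPair := by
  classical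
  intro D V E F _ _ _ _ M hS h3 hT
  have hαα := M.α_inv
  -- (0)
  have hne1 : ∀ d, φ M d ≠ d := by
    intro d hd
    apply hS.noloop d
    rw [← vt_φ, hd]
  have hne2 : ∀ d, φ M (φ M d) ≠ d := by
    intro d hd
    have e1 : φ M d = M.α d := by
      apply hS.simple
      · exact vt_φ M d
      · rw [← vt_φ, hd, hαα]
    have e2 : M.σ (M.α d) = M.α d := e1
    have e3 : M.σ d = d := by
      have : φ M (M.α d) = d := by rw [← e1]; exact hd
      rw [φ_apply, hαα] at this
      exact this
    have hall : ∀ x, x = d ∨ x = M.α d := by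
      apply M.conn (fun x => x = d ∨ x = M.α d) ⟨d, Or.inl rfl⟩
      · rintro x (rfl | rfl)
        · left; exact e3
        · right; exact e2
      · rintro x (rfl | rfl)
        · right; rfl
        · left; exact hαα _
    have hcard : Fintype.card V ≤ 2 := by
      have : (Finset.univ : Finset V) ⊆ {M.vt d, M.vt (M.α d)} := by
        intro v _
        obtain ⟨x, rfl⟩ := M.vt_surj v
        rcases hall x with rfl | rfl <;> simp
      calc Fintype.card V = (Finset.univ : Finset V).card := rfl
        _ ≤ _ := Finset.card_le_card this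
        _ ≤ 2 := Finset.card_le_two
    omega
  by_cases hc : ∃ d, M.vt d = M.vt (φ M (φ M d))
  · obtain ⟨d, hd⟩ := hc
    have e1 : φ M d = M.α d := by
      apply hS.simple
      · exact vt_φ M d
      · rw [← vt_φ, ← hd, hαα]
    have hfix : M.σ (φ M d) = φ M d := by
      nth_rw 1 [e1]
      rfl
    have honly : ∀ x, M.vt x = M.vt (φ M d) → x = φ M d := by
      intro x hx
      have hsc : M.σ.SameCycle (φ M d) x := (M.vt_iff _ _).1 hx.symm
      obtain ⟨n, hn⟩ := hsc
      rw [← hn]
      exact Perm.zpow_apply_eq_self_of_apply_eq_self hfix n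
    refine ⟨φ M d, φ M (φ M (φ M d)), by simp only [fc_φ], ?_, ?_⟩
    · intro hv
      rw [vt_φ M (φ M (φ M d))] at hv
      have := honly _ hv.symm
      have : φ M (φ M d) = d := by
        have h2 := congrArg M.α this
        rw [hαα, e1, hαα] at h2
        rw [e1]
        exact h2
      exact hne2 d this
    · rintro ⟨h, hh1, hh2⟩
      have := honly _ hh1
      have hα1 : M.vt (M.α (φ M d)) = M.vt d := by rw [e1, hαα]
      rw [this, hα1, hd, vt_φ M (φ M (φ M d))] at hh2
      exact hS.noloop _ hh2.symm
  · push Not at hc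
    unfold Triang at hT
    push Not at hT
    obtain ⟨d0, hd0⟩ := hT
    have hst : ∀ d, M.vt d ≠ M.vt (φ M d) := fun d hh => hS.noloop d (by rw [← vt_φ, hh])
    by_cases hv3 : M.vt (φ M (φ M (φ M d0))) = M.vt d0
    · -- use d1 .. d4
      set d1 := φ M d0 with hd1
      set d2 := φ M d1 with hd2
      set d3 := φ M d2 with hd3
      set d4 := φ M d3 with hd4
      by_cases hA : Adj M (M.vt d2) (M.vt d4)
      · obtain ⟨h, hh1, hh2⟩ := hA
        exfalso
        have n14 : M.vt d1 ≠ M.vt d4 := by
          intro hh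
          apply hd0
          apply hS.simple
          · exact hv3
          · rw [← vt_φ, ← vt_φ, ← hd4, ← hd1, hh]
        refine cross d1 d2 d3 d4 (M.α d0) h rfl rfl rfl (hst _) (hc _) n14 (hst _) (hc _) (hst _)
          (by rw [hd1, vt_φ]) (by rw [hαα, hv3]) hh1 hh2
      · exact ⟨d2, d4, ((fc_φ M _).trans (fc_φ M _)).symm, hc _, hA⟩
    · set d1 := φ M d0 with hd1
      set d2 := φ M d1 with hd2
      set d3 := φ M d2 with hd3
      by_cases hA : Adj M (M.vt d0) (M.vt d2)
      · by_cases hB : Adj M (M.vt d1) (M.vt d3)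
        · obtain ⟨g, hg1, hg2⟩ := hA
          obtain ⟨h, hh1, hh2⟩ := hB
          exfalso
          exact cross d0 d1 d2 d3 g h rfl rfl rfl (hst _) (hc _) (Ne.symm hv3) (hst _) (hc _)
            (hst _) hg1 hg2 hh1 hh2
        · exact ⟨d1, d3, ((fc_φ M _).trans (fc_φ M _)).symm, hc _, hB⟩
      · exact ⟨d0, d2, ((fc_φ M _).trans (fc_φ M _)).symm, hc _, hA⟩

end Helper28.PL
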